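import Mathlib
import Pool.Agent.H228R4.Euclid
import Pool.Agent.Q134.CellMain

set_option autoImplicit false

namespace Pool.Agent.Results.MP_c35292_co.CellsSubsoluble

open Pool.Agent.Q134.Cell

open scoped goldenRatio

/-- The points of `ℝ⁴` whose coordinates are, up to signs, a permutation of `a, b, c, d`. -/
def AllPerm (a b c d : ℝ) : Set (EuclideanSpace ℝ (Fin 4)) :=
  {x | ∃ σ : Equiv.Perm (Fin 4), ∃ ε : Fin 4 → ℝ, (∀ i, ε i = 1 ∨ ε i = -1) ∧
    ∀ i, x i = ε i * ![a, b, c, d] (σ i)}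

/-- The points of `ℝ⁴` whose coordinates are, up to signs, an even permutation of `a, b, c, d`. -/
def EvenPerm (a b c d : ℝ) : Set (EuclideanSpace ℝ (Fin 4)) :=
  {x | ∃ σ : Equiv.Perm (Fin 4), Equiv.Perm.sign σ = 1 ∧
    ∃ ε : Fin 4 → ℝ, (∀ i, ε i = 1 ∨ ε i = -1) ∧ ∀ i, x i = ε i * ![a, b, c, d] (σ i)}

/-- The vertex set of the 120-cell (standard coordinates, circumradius `√8`). -/
def cell120 : Set (EuclideanSpace ℝ (Fin 4)) :=
  AllPerm 0 0 2 2 ∪ AllPerm 1 1 1 (√5) ∪ AllPerm (φ⁻¹ ^ 2) φ φ φ ∪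
    AllPerm φ⁻¹ φ⁻¹ φ⁻¹ (φ ^ 2) ∪ EvenPerm 0 (φ⁻¹ ^ 2) 1 (φ ^ 2) ∪
    EvenPerm 0 φ⁻¹ φ (√5) ∪ EvenPerm φ⁻¹ 1 φ 2

/-- The vertex set of the 600-cell (standard coordinates, circumradius `2`). -/
def cell600 : Set (EuclideanSpace ℝ (Fin 4)) :=
  AllPerm 2 0 0 0 ∪ AllPerm 1 1 1 1 ∪ EvenPerm φ 1 φ⁻¹ 0

/-- `Y` is a soluble set: a soluble group of isometries, each mapping `Y` onto itself, acts
transitively on `Y`. -/
def IsSolubleSet {n : ℕ} (Y : Set (EuclideanSpace ℝ (Fin n))) : Prop :=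
  ∃ H : Subgroup (EuclideanSpace ℝ (Fin n) ≃ᵢ EuclideanSpace ℝ (Fin n)),
    Group.IsSolvable H ∧ (∀ h ∈ H, ⇑h '' Y = Y) ∧ ∀ y ∈ Y, ∀ z ∈ Y, ∃ h ∈ H, h y = z

/-- `X` is subsoluble: a finite soluble set, in some dimension, contains a copy of `X`. -/
def Subsoluble {d : ℕ} (X : Set (EuclideanSpace ℝ (Fin d))) : Prop :=
  ∃ n : ℕ, d ≤ n ∧ ∃ Y : Set (EuclideanSpace ℝ (Fin n)), Y.Finite ∧ IsSolubleSet Y ∧
    ∃ f : EuclideanSpace ℝ (Fin d) → EuclideanSpace ℝ (Fin n), Isometry f ∧ f '' X ⊆ Y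

lemma subsoluble_of {d : ℕ} (X : Set (EuclideanSpace ℝ (Fin d))) (hX : X.Finite)
    (hne : X.Nonempty) (htr : ∀ x ∈ X, ∀ y ∈ X,
      ∃ g : EuclideanSpace ℝ (Fin d) ≃ᵢ EuclideanSpace ℝ (Fin d), ⇑g '' X = X ∧ g x = y) :
    Subsoluble X := by
  obtain ⟨m, Y, f, h1, h2, h3, H, h4, h5, h6, h7⟩ :=
    Pool.Agent.H228R4.embed d X hX hne htr
  refine ⟨m, ?_, Y, h1, ⟨H, h5, h6, h7⟩, f, h2, h3⟩
  have hinj := (h2.affineIsometryOfStrictConvexSpace).linearIsometry.injective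
  have := LinearMap.finrank_le_finrank_of_injective
    (f := (h2.affineIsometryOfStrictConvexSpace).linearIsometry.toLinearMap) hinj
  simpa using this

lemma phi_sq : φ ^ 2 = 1 + φ := by rw [Real.goldenRatio_sq]; ring

lemma phi_inv : φ⁻¹ = -1 + φ := by
  have h2 := phi_sq
  exact inv_eq_of_mul_eq_one_right (by linear_combination h2)

lemma phi_inv_sq : φ⁻¹ ^ 2 = 2 - φ := by
  rw [phi_inv]; linear_combination phi_sq

lemma sqrt5 : √5 = -1 + 2 * φ := by
  rw [Real.goldenRatio]; ring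

lemma even_bv (B : ℕ → ℕ → ℤ × ℤ) (t : ℕ) (a b c d : ℝ) (h0 : val (B t 0) = a)
    (h1 : val (B t 1) = b) (h2 : val (B t 2) = c) (h3 : val (B t 3) = d) :
    EvenPerm a b c d = evenPerm (bv B t) := by
  have h : (![a, b, c, d] : Fin 4 → ℝ) = bv B t := by
    ext i; fin_cases i <;> simp [bv, h0, h1, h2, h3]
  rw [EvenPerm, h]; rfl

lemma all_bv (B : ℕ → ℕ → ℤ × ℤ) (t : ℕ) (a b c d : ℝ) (h0 : val (B t 0) = a)
    (h1 : val (B t 1) = b) (h2 : val (B t 2) = c) (h3 : val (B t 3) = d) (i j : Fin 4)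
    (hij : i ≠ j) (h : bv B t i = bv B t j) :
    AllPerm a b c d = evenPerm (bv B t) := by
  have h' : (![a, b, c, d] : Fin 4 → ℝ) = bv B t := by
    ext i; fin_cases i <;> simp [bv, h0, h1, h2, h3]
  rw [← allPerm_eq _ i j hij h, AllPerm, h']; rfl

lemma cell600_eq : cell600 = XX B600 3 := by
  have e0 := all_bv B600 0 2 0 0 0 (by simp [val, B600]) (by simp [val, B600])
    (by simp [val, B600]) (by simp [val, B600]) 1 2 (by decide) (by simp [bv, B600])
  have e1 := all_bv B600 1 1 1 1 1 (by simp [val, B600]) (by simp [val, B600])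
    (by simp [val, B600]) (by simp [val, B600]) 1 2 (by decide) (by simp [bv, B600])
  have e2 := even_bv B600 2 φ 1 φ⁻¹ 0 (by simp [val, B600]) (by simp [val, B600])
    (by rw [phi_inv]; simp [val, B600]) (by simp [val, B600])
  rw [cell600, e0, e1, e2]
  ext x
  simp only [Set.mem_union, XX, Set.mem_ofPred_eq]
  constructor
  · rintro ((h | h) | h)
    exacts [⟨0, by norm_num, h⟩, ⟨1, by norm_num, h⟩, ⟨2, by norm_num, h⟩]
  · rintro ⟨t, ht, h⟩
    interval_cases t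
    · exact Or.inl (Or.inl h)
    · exact Or.inl (Or.inr h)
    · exact Or.inr h

lemma cell120_eq : cell120 = XX B120 7 := by
  have e0 := all_bv B120 0 0 0 2 2 (by simp [val, B120]) (by simp [val, B120])
    (by simp [val, B120]) (by simp [val, B120]) 0 1 (by decide) (by simp [bv, B120])
  have e1 := all_bv B120 1 1 1 1 (√5) (by simp [val, B120]) (by simp [val, B120])
    (by simp [val, B120]) (by simp [val, B120, sqrt5]) 0 1 (by decide) (by simp [bv, B120])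
  have e2 := all_bv B120 2 (φ⁻¹ ^ 2) φ φ φ (by rw [phi_inv_sq]; simp [val, B120]; ring)
    (by simp [val, B120]) (by simp [val, B120]) (by simp [val, B120]) 1 2 (by decide)
    (by simp [bv, B120])
  have e3 := all_bv B120 3 φ⁻¹ φ⁻¹ φ⁻¹ (φ ^ 2) (by rw [phi_inv]; simp [val, B120])
    (by rw [phi_inv]; simp [val, B120]) (by rw [phi_inv]; simp [val, B120])
    (by rw [phi_sq]; simp [val, B120]) 0 1 (by decide) (by simp [bv, B120])
  have e4 := even_bv B120 4 0 (φ⁻¹ ^ 2) 1 (φ ^ 2) (by simp [val, B120])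
    (by rw [phi_inv_sq]; simp [val, B120]; ring) (by simp [val, B120])
    (by rw [phi_sq]; simp [val, B120])
  have e5 := even_bv B120 5 0 φ⁻¹ φ (√5) (by simp [val, B120])
    (by rw [phi_inv]; simp [val, B120]) (by simp [val, B120]) (by simp [val, B120, sqrt5])
  have e6 := even_bv B120 6 φ⁻¹ 1 φ 2 (by rw [phi_inv]; simp [val, B120]) (by simp [val, B120])
    (by simp [val, B120]) (by simp [val, B120])
  rw [cell120, e0, e1, e2, e3, e4, e5, e6]
  ext x
  simp only [Set.mem_union, XX, Set.mem_ofPred_eq]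
  constructor
  · rintro ((((((h | h) | h) | h) | h) | h) | h)
    exacts [⟨0, by norm_num, h⟩, ⟨1, by norm_num, h⟩, ⟨2, by norm_num, h⟩, ⟨3, by norm_num, h⟩,
      ⟨4, by norm_num, h⟩, ⟨5, by norm_num, h⟩, ⟨6, by norm_num, h⟩]
  · rintro ⟨t, ht, h⟩
    interval_cases t <;> tauto

/-- The vertex sets of the 120-cell and of the 600-cell are subsoluble. -/
theorem result : Subsoluble cell120 ∧ Subsoluble cell600 := by
  constructor
  · rw [cell120_eq]
    exact subsoluble_of _ (XX_finite _ _)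
      ⟨pt B120 0, (XX_pt B120 7 _).2 ⟨0, by norm_num, rfl⟩⟩ trans120
  · rw [cell600_eq]
    exact subsoluble_of _ (XX_finite _ _)
      ⟨pt B600 0, (XX_pt B600 3 _).2 ⟨0, by norm_num, rfl⟩⟩ trans600

end Pool.Agent.Results.MP_c35292_co.CellsSubsoluble
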